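import Pool.Agent.MT100B.Stmts

/-! SQR of MT100B: the square root is not meromorphic. -/

set_option autoImplicit false

namespace Pool.Agent.MT100B.H58

open Filter Topology Pool.Agent.MT100

/-- analytic germs satisfying `F² = u G²` vanish -/
theorem sqr_ana (F G : ℝ → ℝ) (hF : AnalyticAt ℝ F 0) (hG : AnalyticAt ℝ G 0)
    (h : ∀ᶠ u in nhdsWithin (0 : ℝ) (Set.Ioi 0), F u ^ 2 = u * G u ^ 2) :
    (∀ᶠ u in 𝓝 (0 : ℝ), F u = 0) ∧ ∀ᶠ u in 𝓝 (0 : ℝ), G u = 0 := by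
  have hid : AnalyticAt ℝ (id : ℝ → ℝ) 0 := analyticAt_id
  have hG2 : AnalyticAt ℝ (G ^ 2) 0 := hG.pow 2
  have hF2 : AnalyticAt ℝ (F ^ 2) 0 := hF.pow 2
  have huG : AnalyticAt ℝ (id * G ^ 2) 0 := hid.mul hG2
  have hfreq : ∃ᶠ u in nhdsWithin (0 : ℝ) {0}ᶜ, (F ^ 2) u = ((id : ℝ → ℝ) * G ^ 2) u := by
    have h1 : ∃ᶠ u in nhdsWithin (0 : ℝ) (Set.Ioi 0), (F ^ 2) u = ((id : ℝ → ℝ) * G ^ 2) u := by
      refine Eventually.frequently ?_
      filter_upwards [h] with u hu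
      simpa using hu
    exact h1.filter_mono (nhdsWithin_mono _ fun x hx => ne_of_gt hx)
  have heq : ∀ᶠ u in 𝓝 (0 : ℝ), (F ^ 2) u = ((id : ℝ → ℝ) * G ^ 2) u :=
    (hF2.frequently_eq_iff_eventually_eq huG).1 hfreq
  have hord : analyticOrderAt (F ^ 2) 0 = analyticOrderAt (id * G ^ 2) (0 : ℝ) :=
    analyticOrderAt_congr heq
  rw [analyticOrderAt_mul hid hG2, analyticOrderAt_pow hF, analyticOrderAt_pow hG,
    analyticOrderAt_id] at hord
  have hGtop : analyticOrderAt G 0 = ⊤ := by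
    by_contra hne
    have hFne : analyticOrderAt F 0 ≠ ⊤ := by
      intro hF'
      rw [hF'] at hord
      obtain ⟨n, hn⟩ := ENat.ne_top_iff_exists.1 hne
      rw [← hn] at hord
      have h1 : (2 • (⊤ : ℕ∞)) = ⊤ := by simp
      rw [h1] at hord
      have h2 : (1 + 2 • (n : ℕ∞)) = ((1 + 2 * n : ℕ) : ℕ∞) := by
        rw [nsmul_eq_mul]; push_cast; rfl
      rw [h2] at hord
      exact ENat.natCast_ne_top _ hord.symm
    obtain ⟨n, hn⟩ := ENat.ne_top_iff_exists.1 hne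
    obtain ⟨m, hm⟩ := ENat.ne_top_iff_exists.1 hFne
    rw [← hn, ← hm] at hord
    have h2 : (1 + 2 • (n : ℕ∞)) = ((1 + 2 * n : ℕ) : ℕ∞) := by
      rw [nsmul_eq_mul]; push_cast; rfl
    have h3 : (2 • (m : ℕ∞)) = ((2 * m : ℕ) : ℕ∞) := by
      rw [nsmul_eq_mul]; push_cast; rfl
    rw [h2, h3] at hord
    have h4 : 2 * m = 1 + 2 * n := by exact_mod_cast hord
    omega
  have hG0 : ∀ᶠ u in 𝓝 (0 : ℝ), G u = 0 := analyticOrderAt_eq_top.1 hGtop
  refine ⟨?_, hG0⟩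
  filter_upwards [heq, hG0] with u hu hgu
  simp only [Pi.pow_apply, Pi.mul_apply, hgu] at hu
  have : F u ^ 2 = 0 := by rw [hu]; simp
  exact pow_eq_zero_iff (two_ne_zero) |>.1 this

theorem sqr : SqrStmt := by
  rintro f g ⟨k, F, hF, hf⟩ ⟨m, G, hG, hg⟩ h
  have hpos : ∀ᶠ u in nhdsWithin (0 : ℝ) (Set.Ioi 0), 0 < u := self_mem_nhdsWithin
  have hidk : ∀ j : ℕ, AnalyticAt ℝ (fun u : ℝ => u ^ j) 0 := fun j => analyticAt_id.pow j
  have key := sqr_ana (fun u => u ^ m * F u) (fun u => u ^ k * G u)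
    ((hidk m).mul hF) ((hidk k).mul hG) (by
      filter_upwards [hf, hg, h, hpos] with u hfu hgu hu hu0
      rw [← hfu, ← hgu]
      have h1 : f u = -(Real.sqrt u * g u) := by linarith
      rw [h1]
      have h2 : Real.sqrt u ^ 2 = u := Real.sq_sqrt hu0.le
      have h3 : (u ^ m * (u ^ k * -(Real.sqrt u * g u))) ^ 2
          = Real.sqrt u ^ 2 * (u ^ k * (u ^ m * g u)) ^ 2 := by ring
      rw [h3, h2])
  obtain ⟨k1, k2⟩ := key
  have k1' := k1.filter_mono (nhdsWithin_le_nhds (s := Set.Ioi (0 : ℝ)))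
  have k2' := k2.filter_mono (nhdsWithin_le_nhds (s := Set.Ioi (0 : ℝ)))
  refine ⟨?_, ?_⟩
  · filter_upwards [k1', hf, hpos] with u h1 h2 h3
    rw [← h2] at h1
    have := mul_eq_zero.1 h1
    rcases this with h4 | h4
    · exact absurd h4 (pow_ne_zero _ h3.ne')
    · exact (mul_eq_zero.1 h4).resolve_left (pow_ne_zero _ h3.ne')
  · filter_upwards [k2', hg, hpos] with u h1 h2 h3
    rw [← h2] at h1
    rcases mul_eq_zero.1 h1 with h4 | h4
    · exact absurd h4 (pow_ne_zero _ h3.ne')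
    · exact (mul_eq_zero.1 h4).resolve_left (pow_ne_zero _ h3.ne')

end Pool.Agent.MT100B.H58
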